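import Pool.Agent.Helper26_Pak.PA3

/-!
# PA4: paths which go upwards
-/

set_option autoImplicit false

namespace Pool.Agent.Helper2_Pak.H19

open Pool.Agent.Helper2_Pack (Polygon pt Crosses region IsSimple chainVal)
open Pool.Agent.Helper2_Pak.H26

theorem StrictY.lt {L : Polygon} (h : StrictY L) {i j : ℕ} (hij : i < j) (hj : j < L.length) :
    (L.getD i 0).2 < (L.getD j 0).2 := by
  rw [List.getD_eq_getElem _ _ (hij.trans hj), List.getD_eq_getElem _ _ hj]
  exact List.pairwise_iff_getElem.1 h i j (hij.trans hj) hj hij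

theorem mem_seg {p r : ℚ × ℚ} (h : p.2 < r.2) {z : ℂ} : z ∈ segment ℝ (pt p) (pt r) ↔
    (p.2 : ℝ) ≤ z.im ∧ z.im ≤ r.2 ∧
      z.re = p.1 + (z.im - p.2) / (r.2 - p.2) * (r.1 - p.1) := by
  have h' : (0 : ℝ) < (r.2 : ℝ) - p.2 := by
    have : (p.2 : ℝ) < r.2 := by exact_mod_cast h
    linarith
  constructor
  · rintro ⟨a, b, ha, hb, hab, hz⟩
    have e1 : z.re = a * p.1 + b * r.1 := by rw [← hz]; simp [pt]
    have e2 : z.im = a * p.2 + b * r.2 := by rw [← hz]; simp [pt]
    have ea : a = 1 - b := by linarith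
    have e3 : z.im - p.2 = b * (r.2 - p.2) := by rw [e2, ea]; ring
    refine ⟨?_, ?_, ?_⟩
    · nlinarith
    · have : z.im = r.2 - a * (r.2 - p.2) := by rw [e2]; have : b = 1 - a := by linarith
                                                rw [this]; ring
      nlinarith
    · rw [e3, mul_div_cancel_right₀ _ h'.ne', e1, ea]; ring
  · rintro ⟨h1, h2, h3⟩
    refine ⟨1 - (z.im - p.2) / (r.2 - p.2), (z.im - p.2) / (r.2 - p.2), ?_, ?_, by ring, ?_⟩
    · rw [sub_nonneg, div_le_one h']; linarith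
    · exact div_nonneg (by linarith) h'.le
    · apply Complex.ext
      · simp only [pt, Complex.add_re, Complex.smul_re, smul_eq_mul]
        rw [h3]; ring
      · have e3 : (z.im - p.2) / (r.2 - p.2) * (r.2 - p.2) = z.im - p.2 :=
          div_mul_cancel₀ _ h'.ne'
        simp only [pt, Complex.add_im, Complex.smul_im, smul_eq_mul]
        linarith [e3]

theorem cv_cons (p r : ℚ × ℚ) (M : Polygon) (y : ℝ) : chainVal (swp (p :: r :: M)) y =
    if y ≤ r.2 then p.1 + (y - p.2) / (r.2 - p.2) * (r.1 - p.1) else chainVal (swp (r :: M)) y := rfl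

theorem cv_head {r : ℚ × ℚ} {M : Polygon} (h : StrictY (r :: M)) :
    chainVal (swp (r :: M)) (r.2 : ℝ) = r.1 := by
  cases M with
  | nil => rfl
  | cons s M =>
    have : r.2 < s.2 := (List.pairwise_cons.1 h).1 s (List.mem_cons_self ..)
    have h' : (r.2 : ℝ) ≤ s.2 := by exact_mod_cast this.le
    rw [cv_cons, if_pos h', sub_self, zero_div, zero_mul, add_zero]

theorem StrictY.last {r B : ℚ × ℚ} {M : Polygon} (h : StrictY (r :: M))
    (hB : (r :: M).getLast? = some B) : r.2 ≤ B.2 := by
  have := List.mem_of_getLast? hB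
  rcases List.mem_cons.1 this with h1 | h1
  · rw [h1]
  · exact ((List.pairwise_cons.1 h).1 B h1).le

theorem graph : ∀ (L : Polygon) (A B : ℚ × ℚ), StrictY L → L.head? = some A →
    L.getLast? = some B → ∀ z, z ∈ pathSet L ↔
      ((A.2 : ℝ) ≤ z.im ∧ z.im ≤ B.2 ∧ z.re = chainVal (swp L) z.im)
  | [], A, B, _, h, _, _ => by simp at h
  | [p], A, B, _, h, h', z => by
    simp only [List.head?_cons, Option.some.injEq, List.getLast?_singleton] at h h'
    subst h; subst h'
    rw [pathSet_singleton, Set.mem_singleton_iff]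
    constructor
    · rintro rfl
      exact ⟨le_rfl, le_rfl, rfl⟩
    · rintro ⟨h1, h2, h3⟩
      apply Complex.ext
      · rw [h3]; rfl
      · exact le_antisymm h2 h1
  | p :: r :: M, A, B, hS, h, h', z => by
    simp only [List.head?_cons, Option.some.injEq] at h
    subst h
    have hS' : StrictY (r :: M) := (List.pairwise_cons.1 hS).2
    have hpr : p.2 < r.2 := (List.pairwise_cons.1 hS).1 r (List.mem_cons_self ..)
    have hpr' : (p.2 : ℝ) < r.2 := by exact_mod_cast hpr
    have hlast : (r :: M).getLast? = some B := by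
      rwa [List.getLast?_cons_cons] at h'
    have hrB : (r.2 : ℝ) ≤ B.2 := by exact_mod_cast StrictY.last hS' hlast
    have ih := graph (r :: M) r B hS' rfl hlast z
    rw [pathSet_cons, Set.mem_union, mem_seg hpr, ih, cv_cons]
    constructor
    · rintro (⟨h1, h2, h3⟩ | ⟨h1, h2, h3⟩)
      · rw [if_pos h2]
        exact ⟨h1, h2.trans hrB, h3⟩
      · refine ⟨by linarith, h2, ?_⟩
        split_ifs with h4
        · have e : z.im = r.2 := le_antisymm h4 h1
          rw [e, cv_head hS'] at h3
          rw [e, div_self (by linarith), h3]; ring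
        · exact h3
    · rintro ⟨h1, h2, h3⟩
      split_ifs at h3 with h4
      · exact Or.inl ⟨h1, h4, h3⟩
      · exact Or.inr ⟨(not_le.1 h4).le, h2, h3⟩

/-! ### crossings -/

section

variable {p r : ℚ × ℚ} {z : ℂ}

theorem crosses_iff : Crosses z (pt p) (pt r) ↔
    ((((p.1 : ℝ) ≤ z.re ∧ z.re < r.1) ∨ ((r.1 : ℝ) ≤ z.re ∧ z.re < p.1)) ∧
    z.im < p.2 + (z.re - p.1) / (r.1 - p.1) * (r.2 - p.2)) := Iff.rfl

theorem side_iff : (((p.1 : ℝ) ≤ z.re ∧ z.re < r.1) ∨ ((r.1 : ℝ) ≤ z.re ∧ z.re < p.1)) ↔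
    ¬ ((p.1 : ℝ) ≤ z.re ↔ (r.1 : ℝ) ≤ z.re) := by
  by_cases h1 : (p.1 : ℝ) ≤ z.re <;> by_cases h2 : (r.1 : ℝ) ≤ z.re <;>
    simp [h1, h2, not_le.1, not_lt.2]

theorem frac (h : ((p.1 : ℝ) ≤ z.re ∧ z.re < r.1) ∨ ((r.1 : ℝ) ≤ z.re ∧ z.re < p.1)) :
    0 ≤ (z.re - p.1) / ((r.1 : ℝ) - p.1) ∧ (z.re - p.1) / ((r.1 : ℝ) - p.1) ≤ 1 := by
  rcases h with ⟨h1, h2⟩ | ⟨h1, h2⟩
  · have h3 : (0 : ℝ) < r.1 - p.1 := by linarith
    exact ⟨div_nonneg (by linarith) h3.le, by rw [div_le_one h3]; linarith⟩
  · have h3 : (r.1 : ℝ) - p.1 < 0 := by linarith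
    exact ⟨div_nonneg_of_nonpos (by linarith) h3.le, by rw [div_le_one_of_neg h3]; linarith⟩

theorem cross1 (hpr : (p.2 : ℝ) < r.2) (h : z.im < p.2) :
    Crosses z (pt p) (pt r) ↔ ¬ ((p.1 : ℝ) ≤ z.re ↔ (r.1 : ℝ) ≤ z.re) := by
  rw [crosses_iff, ← side_iff]
  constructor
  · exact fun h1 => h1.1
  · intro h1
    refine ⟨h1, ?_⟩
    have h2 := frac h1
    have h3 : 0 ≤ (z.re - p.1) / ((r.1 : ℝ) - p.1) * (r.2 - p.2) :=
      mul_nonneg h2.1 (by linarith)
    linarith

theorem cross3 (hpr : (p.2 : ℝ) < r.2) (h : (r.2 : ℝ) < z.im) : ¬ Crosses z (pt p) (pt r) := by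
  rw [crosses_iff]
  rintro ⟨h1, h2⟩
  have h3 := frac h1
  have h4 : (z.re - p.1) / ((r.1 : ℝ) - p.1) * (r.2 - p.2) ≤ 1 * (r.2 - p.2) :=
    mul_le_mul_of_nonneg_right h3.2 (by linarith)
  linarith

theorem cross2 (hpr : (p.2 : ℝ) < r.2) (h1 : (p.2 : ℝ) ≤ z.im) (h2 : z.im ≤ r.2)
    (hne : z.re ≠ p.1 + (z.im - p.2) / (r.2 - p.2) * (r.1 - p.1)) :
    Crosses z (pt p) (pt r) ↔
      ¬ (p.1 + (z.im - p.2) / (r.2 - p.2) * (r.1 - p.1) ≤ z.re ↔ (r.1 : ℝ) ≤ z.re) := by
  have hH : (0 : ℝ) < (r.2 : ℝ) - p.2 := by linarith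
  set τ : ℝ := (z.im - p.2) / (r.2 - p.2) with hτ
  have hτ0 : 0 ≤ τ := div_nonneg (by linarith) hH.le
  have hτ1 : τ ≤ 1 := by rw [hτ, div_le_one hH]; linarith
  have hτe : z.im - p.2 = τ * (r.2 - p.2) := (div_mul_cancel₀ _ hH.ne').symm
  rw [crosses_iff]
  rcases lt_trichotomy (p.1 : ℝ) r.1 with hD | hD | hD
  · -- increasing
    have hD' : (0 : ℝ) < (r.1 : ℝ) - p.1 := by linarith
    have hh : z.im < p.2 + (z.re - p.1) / (r.1 - p.1) * (r.2 - p.2) ↔
        p.1 + τ * (r.1 - p.1) < z.re := by
      have e : (z.re - p.1) / ((r.1 : ℝ) - p.1) * (r.1 - p.1) = z.re - p.1 :=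
        div_mul_cancel₀ _ hD'.ne'
      set w : ℝ := (z.re - p.1) / ((r.1 : ℝ) - p.1) with hw
      have e1 : z.im < p.2 + w * (r.2 - p.2) ↔ τ < w := by
        constructor
        · intro h
          by_contra hc
          have := mul_le_mul_of_nonneg_right (not_lt.1 hc) hH.le
          linarith
        · intro h
          have := mul_lt_mul_of_pos_right h hH
          linarith
      have e2 : p.1 + τ * ((r.1 : ℝ) - p.1) < z.re ↔ τ < w := by
        constructor
        · intro h
          by_contra hc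
          have := mul_le_mul_of_nonneg_right (not_lt.1 hc) hD'.le
          linarith
        · intro h
          have := mul_lt_mul_of_pos_right h hD'
          linarith
      rw [e1, e2]
    rw [hh]
    have hle : p.1 + τ * ((r.1 : ℝ) - p.1) ≤ r.1 := by nlinarith
    have hge : (p.1 : ℝ) ≤ p.1 + τ * ((r.1 : ℝ) - p.1) := by nlinarith
    constructor
    · rintro ⟨h3 | h3, h4⟩
      · intro hc
        exact absurd (hc.1 h4.le) (not_le.2 h3.2)
      · linarith [h3.1, h3.2]
    · intro hc
      have h5 : ¬ (r.1 : ℝ) ≤ z.re := fun h6 => hc ⟨fun _ => h6, fun _ => hle.trans h6⟩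
      have h6 : p.1 + τ * ((r.1 : ℝ) - p.1) ≤ z.re := by
        by_contra h7
        exact hc ⟨fun h => absurd h h7, fun h => absurd h h5⟩
      have h8 := lt_of_le_of_ne h6 (Ne.symm hne)
      exact ⟨Or.inl ⟨hge.trans h6, not_le.1 h5⟩, h8⟩
  · -- vertical
    have h3 : p.1 + τ * ((r.1 : ℝ) - p.1) = r.1 := by rw [hD]; ring
    rw [h3]
    constructor
    · rintro ⟨h4 | h4, -⟩
      · linarith [h4.1, h4.2]
      · linarith [h4.1, h4.2]
    · intro h; exact absurd Iff.rfl h
  · -- decreasing
    have hD' : (0 : ℝ) < (p.1 : ℝ) - r.1 := by linarith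
    have hh : z.im < p.2 + (z.re - p.1) / (r.1 - p.1) * (r.2 - p.2) ↔
        z.re < p.1 + τ * (r.1 - p.1) := by
      have hD2 : (r.1 : ℝ) - p.1 ≠ 0 := by linarith
      have e : (z.re - p.1) / ((r.1 : ℝ) - p.1) * (r.1 - p.1) = z.re - p.1 :=
        div_mul_cancel₀ _ hD2
      set w : ℝ := (z.re - p.1) / ((r.1 : ℝ) - p.1) with hw
      have e1 : z.im < p.2 + w * (r.2 - p.2) ↔ τ < w := by
        constructor
        · intro h
          by_contra hc
          have := mul_le_mul_of_nonneg_right (not_lt.1 hc) hH.le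
          linarith
        · intro h
          have := mul_lt_mul_of_pos_right h hH
          linarith
      have e2 : z.re < p.1 + τ * ((r.1 : ℝ) - p.1) ↔ τ < w := by
        constructor
        · intro h
          by_contra hc
          have := mul_le_mul_of_nonneg_right (not_lt.1 hc) hD'.le
          nlinarith
        · intro h
          have := mul_lt_mul_of_pos_right h hD'
          nlinarith
      rw [e1, e2]
    rw [hh]
    have hge : (r.1 : ℝ) ≤ p.1 + τ * ((r.1 : ℝ) - p.1) := by nlinarith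
    have hle : p.1 + τ * ((r.1 : ℝ) - p.1) ≤ p.1 := by nlinarith
    constructor
    · rintro ⟨h3 | h3, h4⟩
      · linarith [h3.1, h3.2]
      · intro hc
        exact absurd (hc.2 h3.1) (not_le.2 h4)
    · intro hc
      have h5 : ¬ (p.1 + τ * ((r.1 : ℝ) - p.1) ≤ z.re) := fun h6 =>
        hc ⟨fun _ => hge.trans h6, fun _ => h6⟩
      have h6 : (r.1 : ℝ) ≤ z.re := by
        by_contra h7
        exact hc ⟨fun h => absurd h h5, fun h => absurd h h7⟩
      exact ⟨Or.inr ⟨h6, (not_le.1 h5).trans_le hle⟩, not_le.1 h5⟩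

end

/-- the parity condition -/
def QQ (L : Polygon) (A B : ℚ × ℚ) (z : ℂ) : Prop :=
  (z.im < A.2 ∧ ¬ ((A.1 : ℝ) ≤ z.re ↔ (B.1 : ℝ) ≤ z.re)) ∨
  ((A.2 : ℝ) ≤ z.im ∧ z.im ≤ B.2 ∧ ¬ (chainVal (swp L) z.im ≤ z.re ↔ (B.1 : ℝ) ≤ z.re))

theorem prop3 {P B R : Prop} : ¬ (P ↔ B) ↔ ¬ (¬ (P ↔ R) ↔ ¬ (R ↔ B)) := by
  by_cases hP : P <;> by_cases hB : B <;> by_cases hR : R <;> simp [hP, hB, hR]

theorem parity_step {a b R : Prop} [Decidable a] [Decidable b] [Decidable R] {n : ℕ}
    (hn : n % 2 = if b then 1 else 0) (h : R ↔ ¬ (a ↔ b)) :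
    ((if a then 1 else 0) + n) % 2 = if R then 1 else 0 := by
  by_cases ha : a <;> by_cases hb : b
  · have hR : ¬ R := fun hr => (h.1 hr) ⟨fun _ => hb, fun _ => ha⟩
    rw [if_pos ha, if_neg hR]; rw [if_pos hb] at hn; omega
  · have hR : R := h.2 fun hc => hb (hc.1 ha)
    rw [if_pos ha, if_pos hR]; rw [if_neg hb] at hn; omega
  · have hR : R := h.2 fun hc => ha (hc.2 hb)
    rw [if_neg ha, if_pos hR]; rw [if_pos hb] at hn; omega
  · have hR : ¬ R := fun hr => (h.1 hr) ⟨fun h => absurd h ha, fun h => absurd h hb⟩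
    rw [if_neg ha, if_neg hR]; rw [if_neg hb] at hn; omega

theorem parity : ∀ (L : Polygon) (A B : ℚ × ℚ), StrictY L → L.head? = some A →
    L.getLast? = some B → ∀ z, z ∉ pathSet L →
    cr z L % 2 = (open Classical in if QQ L A B z then 1 else 0)
  | [], A, B, _, h, _, _, _ => by simp at h
  | [p], A, B, _, h, h', z, hz => by
    classical
    simp only [List.head?_cons, Option.some.injEq, List.getLast?_singleton] at h h'
    subst h; subst h'
    rw [cr_singleton, if_neg]
    rintro (⟨-, h2⟩ | ⟨h1, h2, h3⟩)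
    · exact h2 Iff.rfl
    · exact h3 Iff.rfl
  | p :: r :: M, A, B, hS, h, h', z, hz => by
    classical
    simp only [List.head?_cons, Option.some.injEq] at h
    subst h
    have hS' : StrictY (r :: M) := (List.pairwise_cons.1 hS).2
    have hpr : p.2 < r.2 := (List.pairwise_cons.1 hS).1 r (List.mem_cons_self ..)
    have hpr' : (p.2 : ℝ) < r.2 := by exact_mod_cast hpr
    have hlast : (r :: M).getLast? = some B := by
      rwa [List.getLast?_cons_cons] at h'
    have hrB : (r.2 : ℝ) ≤ B.2 := by exact_mod_cast StrictY.last hS' hlast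
    rw [pathSet_cons, Set.mem_union, not_or, mem_seg hpr] at hz
    have ih := parity (r :: M) r B hS' rfl hlast z hz.2
    rw [cr_cons]
    refine parity_step ih ?_
    rcases lt_or_ge z.im (p.2 : ℝ) with h1 | h1
    · -- below
      have h2 : z.im < r.2 := h1.trans hpr'
      have eL : QQ (p :: r :: M) p B z ↔ ¬ ((p.1 : ℝ) ≤ z.re ↔ (B.1 : ℝ) ≤ z.re) := by
        unfold QQ
        constructor
        · rintro (h | h)
          · exact h.2
          · exact absurd h.1 (not_le.2 h1)
        · exact fun h => Or.inl ⟨h1, h⟩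
      have eT : QQ (r :: M) r B z ↔ ¬ ((r.1 : ℝ) ≤ z.re ↔ (B.1 : ℝ) ≤ z.re) := by
        unfold QQ
        constructor
        · rintro (h | h)
          · exact h.2
          · exact absurd h.1 (not_le.2 h2)
        · exact fun h => Or.inl ⟨h2, h⟩
      rw [eL, eT, cross1 hpr' h1]
      exact prop3
    · rcases le_or_gt z.im (r.2 : ℝ) with h2 | h2
      · -- the level of the edge
        have hne : z.re ≠ p.1 + (z.im - p.2) / (r.2 - p.2) * (r.1 - p.1) :=
          fun he => hz.1 ⟨h1, h2, he⟩
        have eL : QQ (p :: r :: M) p B z ↔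
            ¬ (p.1 + (z.im - p.2) / (r.2 - p.2) * (r.1 - p.1) ≤ z.re ↔ (B.1 : ℝ) ≤ z.re) := by
          unfold QQ
          rw [cv_cons, if_pos h2]
          constructor
          · rintro (h | h)
            · exact absurd h1 (not_le.2 h.1)
            · exact h.2.2
          · exact fun h => Or.inr ⟨h1, h2.trans hrB, h⟩
        have eT : QQ (r :: M) r B z ↔ ¬ ((r.1 : ℝ) ≤ z.re ↔ (B.1 : ℝ) ≤ z.re) := by
          unfold QQ
          rcases h2.lt_or_eq with h3 | h3
          · constructor
            · rintro (h | h)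
              · exact h.2
              · exact absurd h.1 (not_le.2 h3)
            · exact fun h => Or.inl ⟨h3, h⟩
          · rw [h3, cv_head hS']
            constructor
            · rintro (h | h)
              · exact absurd h.1 (lt_irrefl _)
              · exact h.2.2
            · exact fun h => Or.inr ⟨le_rfl, hrB, h⟩
        rw [eL, eT, cross2 hpr' h1 h2 hne]
        exact prop3
      · -- above
        have h3 := cross3 (z := z) hpr' h2
        have eL : QQ (p :: r :: M) p B z ↔ QQ (r :: M) r B z := by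
          unfold QQ
          rw [cv_cons, if_neg (not_le.2 h2)]
          constructor
          · rintro (h | h)
            · exact absurd h1 (not_le.2 h.1)
            · exact Or.inr ⟨h2.le, h.2⟩
          · rintro (h | h)
            · exact absurd h2.le (not_le.2 h.1)
            · exact Or.inr ⟨h1, h.2⟩
        rw [eL]
        exact ⟨fun h hc => h3 (hc.2 h), fun h => by
          by_contra hq
          exact h ⟨fun hx => absurd hx h3, fun hx => absurd hx hq⟩⟩

/-! ### the reversed path -/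

theorem segP_reverse {L : Polygon} {i : ℕ} (hi : i + 1 < L.length) :
    segP L.reverse i = segP L (L.length - 2 - i) := by
  have e : ∀ i, i < L.length → L.reverse.getD i 0 = L.getD (L.length - 1 - i) 0 := by
    intro i hi
    rw [List.getD_eq_getElem?_getD, List.getD_eq_getElem?_getD, List.getElem?_reverse hi]
  unfold segP
  rw [e i (by omega), e (i + 1) hi, segment_symm]
  congr 3 <;> omega

theorem pathSet_reverse (L : Polygon) : pathSet L.reverse = pathSet L := by
  have h : ∀ L : Polygon, pathSet L.reverse ⊆ pathSet L := by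
    intro L z hz
    rcases hz with ⟨i, hi, hz⟩ | ⟨p, hp, hz⟩
    · rw [List.length_reverse] at hi
      rw [segP_reverse hi] at hz
      exact Or.inl ⟨L.length - 2 - i, by omega, hz⟩
    · refine Or.inr ⟨p, ?_, hz⟩
      have := congrArg List.reverse hp
      simpa using this
  refine Set.Subset.antisymm (h L) ?_
  have := h L.reverse
  rwa [List.reverse_reverse] at this

theorem crosses_symm (z p q : ℂ) : Crosses z p q ↔ Crosses z q p := by
  have h : ∀ p q : ℂ, Crosses z p q → Crosses z q p := by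
    rintro p q ⟨h1, h2⟩
    refine ⟨h1.symm, ?_⟩
    have hne : q.re - p.re ≠ 0 := by
      rcases h1 with h | h
      · have : 0 < q.re - p.re := by linarith [h.1, h.2]
        exact this.ne'
      · have : q.re - p.re < 0 := by linarith [h.1, h.2]
        exact this.ne
    have hne' : p.re - q.re ≠ 0 := fun h => hne (by linarith)
    have e : q.im + (z.re - q.re) / (p.re - q.re) * (p.im - q.im) =
        p.im + (z.re - p.re) / (q.re - p.re) * (q.im - p.im) := by
      have : p.re - q.re = -(q.re - p.re) := by ring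
      rw [this, div_neg]
      field_simp
      ring
    rw [e]; exact h2
  exact ⟨h p q, h q p⟩

theorem cr_snoc (z : ℂ) (L : Polygon) (p q : ℚ × ℚ) : cr z (L ++ [p, q]) =
    cr z (L ++ [p]) + (open Classical in if Crosses z (pt p) (pt q) then 1 else 0) := by
  classical
  induction L with
  | nil => simp [cr_cons, cr_singleton]
  | cons a L ih =>
    cases L with
    | nil => simp [cr_cons, cr_singleton]
    | cons b L =>
      simp only [List.cons_append] at ih ⊢
      rw [cr_cons, ih, cr_cons]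
      ring

theorem cr_reverse (z : ℂ) (L : Polygon) : cr z L.reverse = cr z L := by
  classical
  induction L with
  | nil => rfl
  | cons a L ih =>
    cases L with
    | nil => rfl
    | cons b L =>
      rw [List.reverse_cons, List.reverse_cons, List.append_assoc, List.singleton_append, cr_snoc,
        ← List.reverse_cons, ih, cr_cons, add_comm]
      congr 1
      by_cases h : Crosses z (pt a) (pt b)
      · rw [if_pos h, if_pos ((crosses_symm z _ _).1 h)]
      · rw [if_neg h, if_neg (fun h' => h ((crosses_symm z _ _).1 h'))]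

/-! ### simplicity -/

theorem StrictY.simple {L : Polygon} (h : StrictY L) : SimpleP L := by
  refine ⟨fun i hi he => ?_, fun i j hij hj z hz hz' => ?_⟩
  · have := StrictY.lt h (Nat.lt_succ_self i) hi
    rw [he] at this
    exact lt_irrefl _ this
  · have h1 := StrictY.lt h (Nat.lt_succ_self i) (by omega : i + 1 < L.length)
    have h2 := StrictY.lt h (Nat.lt_succ_self j) hj
    have m1 := (mem_seg h1).1 hz
    have m2 := (mem_seg h2).1 hz'
    have h3 : j = i + 1 := by
      by_contra hne
      have h4 := StrictY.lt h (by omega : i + 1 < j) (by omega)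
      have h4' : ((L.getD (i + 1) 0).2 : ℝ) < ((L.getD j 0).2 : ℝ) := by exact_mod_cast h4
      have := m1.2.1
      have := m2.1
      simp only [Nat.succ_eq_add_one] at *
      linarith
    subst h3
    refine ⟨rfl, ?_⟩
    have e : z.im = ((L.getD (i + 1) 0).2 : ℝ) := le_antisymm m1.2.1 m2.1
    have e2 := m2.2.2
    rw [e, sub_self, zero_div, zero_mul, add_zero] at e2
    apply Complex.ext
    · exact e2
    · exact e

/-- PA4 -/
theorem pa4 : PA4Stmt := by
  intro L A B hS hlen hA hB hAB
  have hAB' : (A.1 : ℝ) = B.1 := by exact_mod_cast hAB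
  have hsimple := StrictY.simple hS
  have hA2 : (A.2 : ℝ) ≤ B.2 := by
    cases L with
    | nil => simp at hA
    | cons a L =>
      simp only [List.head?_cons, Option.some.injEq] at hA
      subst hA
      exact_mod_cast StrictY.last hS hB
  refine ⟨hsimple, SimpleP.reverse hsimple, pathSet_reverse L, fun z => cr_reverse z L, ?_, ?_⟩
  · ext z
    exact graph L A B hS hA hB z
  · intro z hz
    rw [parity L A B hS hA hB z hz]
    have hne : ∀ h1 : (A.2 : ℝ) ≤ z.im, z.im ≤ B.2 → chainVal (swp L) z.im ≠ z.re :=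
      fun h1 h2 he => hz ((graph L A B hS hA hB z).2 ⟨h1, h2, he.symm⟩)
    have key : QQ L A B z ↔ ((A.2 : ℝ) ≤ z.im ∧ z.im ≤ B.2 ∧
        ((z.re < chainVal (swp L) z.im ∧ (A.1 : ℝ) ≤ z.re) ∨
        (chainVal (swp L) z.im < z.re ∧ z.re < A.1))) := by
      unfold QQ
      rw [← hAB']
      constructor
      · rintro (h | ⟨h1, h2, h3⟩)
        · exact absurd Iff.rfl h.2
        · refine ⟨h1, h2, ?_⟩
          have h4 := hne h1 h2
          rcases lt_or_gt_of_ne h4 with h5 | h5
          · right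
            refine ⟨h5, ?_⟩
            by_contra h6
            exact h3 ⟨fun _ => not_lt.1 h6, fun _ => h5.le⟩
          · left
            refine ⟨h5, ?_⟩
            by_contra h6
            exact h3 ⟨fun h7 => absurd h7 (not_le.2 h5), fun h7 => absurd h7 h6⟩
      · rintro ⟨h1, h2, h3⟩
        refine Or.inr ⟨h1, h2, ?_⟩
        rcases h3 with ⟨h4, h5⟩ | ⟨h4, h5⟩
        · exact fun h6 => absurd (h6.2 h5) (not_le.2 h4)
        · exact fun h6 => absurd (h6.1 h4.le) (not_le.2 h5)
    simp only [key]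

end Pool.Agent.Helper2_Pak.H19
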